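import Pool.Agent.Q191.TR.Final

/-!
# MP_354e85_al: residually finite groups of cost larger than one have Tarski number at most six

The bound holds for every finitely generated residually finite group of cost larger than one or of
positive rank gradient, and for every group which has such a section.  For torsion groups the
Tarski number is exactly six.
-/

set_option autoImplicit false

open MeasureTheory

namespace Pool.Agent.Results.MP_354e85_al.ResiduallyFinite

/-- The cost of the countable group `H` is at least `c`: for every essentially free probability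
measure preserving action of `H` on a standard Borel space, every graphing of the orbit relation,
given by restrictions `y ↦ s i • y`, `y ∈ A i`, of elements of `H` to measurable sets, has cost
at least `c`. -/
def CostAtLeast (H : Type) [Group H] (c : ENNReal) : Prop :=
  ∀ (X : Type) [MeasurableSpace X] [StandardBorelSpace X] (μ : Measure X)
    [IsProbabilityMeasure μ] [MulAction H X],
    (∀ g : H, MeasurePreserving (fun x : X => g • x) μ μ) →
    (∀ᵐ x ∂μ, ∀ g : H, g • x = x → g = 1) →
    ∀ (A : ℕ → Set X) (s : ℕ → H), (∀ i, MeasurableSet (A i)) →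
      (∀ᵐ x ∂μ, ∀ g : H, Relation.ReflTransGen
        (fun y z : X => ∃ i, (y ∈ A i ∧ z = s i • y) ∨ (z ∈ A i ∧ y = s i • z)) x (g • x)) →
      c ≤ ∑' i, μ (A i)

/-- The cost of `H` is larger than one. -/
def CostGreaterThanOne (H : Type) [Group H] : Prop :=
  ∃ ε : ENNReal, 0 < ε ∧ CostAtLeast H (1 + ε)

/-- `H` has positive rank gradient: for some `ε > 0`, a subgroup `N` of finite index cannot be
generated by fewer than `1 + ε [H : N]` elements. -/
def PositiveRankGradient (H : Type) [Group H] : Prop :=
  ∃ ε : ℝ, 0 < ε ∧ ∀ N : Subgroup H, N.FiniteIndex → ∀ T : Finset H,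
    Subgroup.closure (T : Set H) = N → 1 + ε * N.index ≤ T.card

/-- `G` has a paradoxical decomposition with at most `N` pieces. -/
def Paradoxical (G : Type) [Group G] (N : ℕ) : Prop :=
  ∃ m n : ℕ, m + n ≤ N ∧
    ∃ (A : Fin m → Set G) (B : Fin n → Set G) (g : Fin m → G) (h : Fin n → G),
      (∀ x : G, ∃! p : Fin m ⊕ Fin n, x ∈ Sum.elim A B p) ∧
      (∀ x : G, ∃! i : Fin m, (g i)⁻¹ * x ∈ A i) ∧
      (∀ x : G, ∃! j : Fin n, (h j)⁻¹ * x ∈ B j)

/-- Let `H` be a finitely generated residually finite group whose cost is larger than one or whose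
rank gradient is positive.  Then every group `G` which has `H` as a section (a quotient `f` of a
subgroup `M`) has a paradoxical decomposition with at most six pieces; if `G` is a torsion group,
then there is none with at most five pieces, so that the Tarski number of `G` is six. -/
theorem result (H : Type) [Group H] (hfg : Group.FG H) (hrf : Group.ResiduallyFinite H)
    (hH : CostGreaterThanOne H ∨ PositiveRankGradient H)
    (G : Type) [Group G] (M : Subgroup G) (f : M →* H) (hf : Function.Surjective f) :
    Paradoxical G 6 ∧ ((∀ g : G, IsOfFinOrder g) → ¬ Paradoxical G 5) := by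
  classical
  refine ⟨?_, fun h => Pool.Agent.Q191.TR.not_parad_five h⟩
  obtain ⟨S, hS⟩ := Group.fg_def.1 hfg
  have hcount : Countable H := Pool.Agent.Q191.TR.countable_of_gen S hS
  have hrg : ∃ δ : ℝ, 0 < δ ∧ Pool.Agent.Q191.TR.RGpos H δ := by
    rcases hH with ⟨ε, hε, hc⟩ | ⟨ε, hε, hc⟩
    · refine Pool.Agent.Q191.TR.rg_of_cost hε ?_
      rintro c hc' ⟨X, h1, h2, μ, h3, h4, h5, h6, A, s, h7, h8, h9⟩
      exact absurd ((hc X μ h5 h6 A s h7 h8).trans h9) (not_le.2 hc')
    · refine ⟨ε, hε, fun N hN T hT => ?_⟩
      have := hc N hN T hT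
      linarith
  obtain ⟨δ, hδ, hrg⟩ := hrg
  exact Pool.Agent.Q191.TR.main6 M.subtype M.subtype_injective f hf S hS hδ hrg

end Pool.Agent.Results.MP_354e85_al.ResiduallyFinite
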